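import Mathlib

/-!
# Non-regular solutions of the three-dimensional queens problem

If `n, m ≥ 2` and `n m` is coprime to `210`, then the `(nm, 3)`-queens problem has a solution that
is not regular. The smallest case is the board of side `121`.
-/

open Finset

namespace Pool.Agent.Results.MP_70387e_co.NonRegular

/-- Cells of the integer grid `ℤ³`. -/
abbrev Cell : Type := ℤ × ℤ × ℤ

/-- Two cells attack each other: they differ by a nonzero integer multiple `t v` of a nonzero
vector `v ∈ {-1, 0, 1}³`. -/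
def Attack (x y : Cell) : Prop :=
  ∃ (t a b c : ℤ), t ≠ 0 ∧ ¬ (a = 0 ∧ b = 0 ∧ c = 0) ∧ a ∈ ({-1, 0, 1} : Set ℤ) ∧
    b ∈ ({-1, 0, 1} : Set ℤ) ∧ c ∈ ({-1, 0, 1} : Set ℤ) ∧
    y.1 - x.1 = t * a ∧ y.2.1 - x.2.1 = t * b ∧ y.2.2 - x.2.2 = t * c

/-- `Q` is a solution of the `(N, 3)`-queens problem: `N²` pairwise non-attacking cells of
`{1, ..., N}³`. -/
def IsSolution (N : ℕ) (Q : Finset Cell) : Prop :=
  (∀ x ∈ Q, (1 ≤ x.1 ∧ x.1 ≤ N) ∧ (1 ≤ x.2.1 ∧ x.2.1 ≤ N) ∧ (1 ≤ x.2.2 ∧ x.2.2 ≤ N)) ∧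
    Q.card = N ^ 2 ∧ ∀ x ∈ Q, ∀ y ∈ Q, x ≠ y → ¬ Attack x y

/-- `Q` is regular: `k ≡ a i + b j + c (mod N)` for all `(i, j, k) ∈ Q`. -/
def IsRegular (N : ℕ) (Q : Finset Cell) : Prop :=
  ∃ a b c : ℤ, ∀ x ∈ Q, x.2.2 ≡ a * x.1 + b * x.2.1 + c [ZMOD N]

/-- the perturbation -/
def eps (i j : ℤ) : ℤ := if i = 0 ∧ j = 0 then 1 else 0

/-- the height function (coordinates start with `0`) -/
def F (n m i j : ℤ) : ℤ :=
  n * ((2 * (i / n) + 4 * (j / n) + eps (i % n) (j % n)) % m) + (2 * (i % n) + 4 * (j % n)) % n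

lemma F_nonneg {n m : ℤ} (hn : 0 < n) (hm : 0 < m) (i j : ℤ) : 0 ≤ F n m i j := by
  unfold F
  have h1 := Int.emod_nonneg (2 * (i / n) + 4 * (j / n) + eps (i % n) (j % n)) hm.ne'
  have h2 := Int.emod_nonneg (2 * (i % n) + 4 * (j % n)) hn.ne'
  positivity

lemma F_lt {n m : ℤ} (hn : 0 < n) (hm : 0 < m) (i j : ℤ) : F n m i j < n * m := by
  unfold F
  have h1 := Int.emod_lt_of_pos (2 * (i / n) + 4 * (j / n) + eps (i % n) (j % n)) hm
  have h2 := Int.emod_lt_of_pos (2 * (i % n) + 4 * (j % n)) hn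
  have h3 : n * ((2 * (i / n) + 4 * (j / n) + eps (i % n) (j % n)) % m) ≤ n * (m - 1) :=
    mul_le_mul_of_nonneg_left (by omega) hn.le
  have h4 : n * (m - 1) = n * m - n := by ring
  omega

/-- a number `w ≠ 0` with `|w| ≤ 7` is coprime to `k` if `k` is coprime to `210` -/
lemma coprime_small {k : ℤ} (hk : IsCoprime k 210) {w : ℤ} (h1 : w ≠ 0) (h2 : -7 ≤ w)
    (h3 : w ≤ 7) : IsCoprime k w := by
  have h4 : IsCoprime k (210 ^ 2) := hk.pow_right
  apply IsCoprime.of_isCoprime_of_dvd_right h4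
  interval_cases w
  all_goals first
    | exact absurd rfl h1
    | decide

lemma key {n m : ℤ} (hn : 0 < n) (hm : 0 < m) (hcn : IsCoprime n 210) (hcm : IsCoprime m 210)
    {i j i' j' t a b c : ℤ} (ht : t ≠ 0) (hv : ¬ (a = 0 ∧ b = 0 ∧ c = 0))
    (ha : a ∈ ({-1, 0, 1} : Set ℤ)) (hb : b ∈ ({-1, 0, 1} : Set ℤ))
    (hc : c ∈ ({-1, 0, 1} : Set ℤ))
    (hi : 0 ≤ i ∧ i < n * m) (hi' : 0 ≤ i' ∧ i' < n * m)
    (hj : 0 ≤ j ∧ j < n * m) (hj' : 0 ≤ j' ∧ j' < n * m)
    (e1 : i' - i = t * a) (e2 : j' - j = t * b) (e3 : F n m i' j' - F n m i j = t * c) :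
    False := by
  simp only [Set.mem_insert_iff, Set.mem_singleton_iff] at ha hb hc
  -- the number `w`
  have hw0 : c - 2 * a - 4 * b ≠ 0 := by
    intro h
    apply hv
    rcases ha with rfl | rfl | rfl <;> rcases hb with rfl | rfl | rfl <;>
      rcases hc with rfl | rfl | rfl <;> omega
  have hw1 : -7 ≤ c - 2 * a - 4 * b := by
    rcases ha with rfl | rfl | rfl <;> rcases hb with rfl | rfl | rfl <;>
      rcases hc with rfl | rfl | rfl <;> norm_num
  have hw2 : c - 2 * a - 4 * b ≤ 7 := by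
    rcases ha with rfl | rfl | rfl <;> rcases hb with rfl | rfl | rfl <;>
      rcases hc with rfl | rfl | rfl <;> norm_num
  have hwn := coprime_small hcn hw0 hw1 hw2
  have hwm := coprime_small hcm hw0 hw1 hw2
  -- reduction modulo `n`
  have hF : ∀ i j, F n m i j ≡ 2 * i + 4 * j [ZMOD n] := by
    intro i j
    unfold F
    have h1 : (2 * (i % n) + 4 * (j % n)) % n ≡ 2 * (i % n) + 4 * (j % n) [ZMOD n] :=
      Int.mod_modEq _ _
    have h2 : 2 * (i % n) + 4 * (j % n) ≡ 2 * i + 4 * j [ZMOD n] :=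
      Int.ModEq.add ((Int.mod_modEq i n).mul_left 2) ((Int.mod_modEq j n).mul_left 4)
    have h3 : n * ((2 * (i / n) + 4 * (j / n) + eps (i % n) (j % n)) % m) ≡ 0 [ZMOD n] :=
      Int.modEq_zero_iff_dvd.2 (dvd_mul_right _ _)
    calc _ ≡ 0 + (2 * i + 4 * j) [ZMOD n] := Int.ModEq.add h3 (h1.trans h2)
      _ = 2 * i + 4 * j := by ring
  have hnt : n ∣ t := by
    have h1 : F n m i' j' - F n m i j ≡ (2 * i' + 4 * j') - (2 * i + 4 * j) [ZMOD n] :=
      Int.ModEq.sub (hF i' j') (hF i j)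
    have h2 : n ∣ t * (c - 2 * a - 4 * b) := by
      have h3 := h1.symm.dvd
      rw [e3] at h3
      have h4 : t * c - (2 * i' + 4 * j' - (2 * i + 4 * j)) = t * (c - 2 * a - 4 * b) := by
        have : 2 * i' + 4 * j' - (2 * i + 4 * j) = 2 * (i' - i) + 4 * (j' - j) := by ring
        rw [this, e1, e2]; ring
      rwa [h4] at h3
    exact hwn.dvd_of_dvd_mul_right h2
  obtain ⟨s, rfl⟩ := hnt
  -- the digits
  have hi2 : i' = i + n * (s * a) := by linarith
  have hj2 : j' = j + n * (s * b) := by linarith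
  have hF2 : F n m i' j' = n * ((2 * (i / n + s * a) + 4 * (j / n + s * b) +
      eps (i % n) (j % n)) % m) + (2 * (i % n) + 4 * (j % n)) % n := by
    unfold F
    rw [hi2, hj2, Int.add_mul_emod_self_left, Int.add_mul_emod_self_left,
      Int.add_mul_ediv_left _ _ hn.ne', Int.add_mul_ediv_left _ _ hn.ne']
  have hms : m ∣ s := by
    have h1 : n * ((2 * (i / n + s * a) + 4 * (j / n + s * b) + eps (i % n) (j % n)) % m -
        (2 * (i / n) + 4 * (j / n) + eps (i % n) (j % n)) % m) = n * (s * c) := by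
      rw [hF2] at e3
      unfold F at e3
      linarith
    have h2 := mul_left_cancel₀ hn.ne' h1
    have h3 : (2 * (i / n + s * a) + 4 * (j / n + s * b) + eps (i % n) (j % n)) % m -
        (2 * (i / n) + 4 * (j / n) + eps (i % n) (j % n)) % m ≡
        (2 * (i / n + s * a) + 4 * (j / n + s * b) + eps (i % n) (j % n)) -
        (2 * (i / n) + 4 * (j / n) + eps (i % n) (j % n)) [ZMOD m] :=
      Int.ModEq.sub (Int.mod_modEq _ _) (Int.mod_modEq _ _)
    rw [h2] at h3
    have h4 := h3.symm.dvd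
    have h5 : s * c - ((2 * (i / n + s * a) + 4 * (j / n + s * b) + eps (i % n) (j % n)) -
        (2 * (i / n) + 4 * (j / n) + eps (i % n) (j % n))) = s * (c - 2 * a - 4 * b) := by ring
    rw [h5] at h4
    exact hwm.dvd_of_dvd_mul_right h4
  obtain ⟨u, rfl⟩ := hms
  have hu : u ≠ 0 := by
    rintro rfl
    apply ht; ring
  have hbig : ∀ z : ℤ, z ∈ ({-1, 1} : Set ℤ) → n * m ≤ |n * (m * u) * z| := by
    intro z hz
    have hz1 : |z| = 1 := by
      simp only [Set.mem_insert_iff, Set.mem_singleton_iff] at hz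
      rcases hz with rfl | rfl <;> norm_num
    have h1 : n * (m * u) * z = (n * m) * (u * z) := by ring
    rw [h1, abs_mul (n * m), abs_mul u, hz1, mul_one, abs_of_pos (mul_pos hn hm)]
    have h2 : 1 ≤ |u| := Int.one_le_abs hu
    nlinarith [mul_pos hn hm]
  have g1 := F_nonneg hn hm i j
  have g2 := F_nonneg hn hm i' j'
  have g3 := F_lt hn hm i j
  have g4 := F_lt hn hm i' j'
  have hsmall : ∀ z z' : ℤ, 0 ≤ z → z < n * m → 0 ≤ z' → z' < n * m → |z' - z| < n * m := by
    intro z z' h1 h2 h3 h4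
    rw [abs_lt]; constructor <;> linarith
  have hcase : (a ∈ ({-1, 1} : Set ℤ)) ∨ (b ∈ ({-1, 1} : Set ℤ)) ∨ (c ∈ ({-1, 1} : Set ℤ)) := by
    simp only [Set.mem_insert_iff, Set.mem_singleton_iff]
    by_contra hcon
    push Not at hcon
    apply hv
    refine ⟨?_, ?_, ?_⟩
    · rcases ha with h | h | h
      · exact absurd h hcon.1.1
      · exact h
      · exact absurd h hcon.1.2
    · rcases hb with h | h | h
      · exact absurd h hcon.2.1.1
      · exact h
      · exact absurd h hcon.2.1.2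
    · rcases hc with h | h | h
      · exact absurd h hcon.2.2.1
      · exact h
      · exact absurd h hcon.2.2.2
  rcases hcase with h | h | h
  · have h1 := hbig a h
    rw [← e1] at h1
    exact absurd (hsmall i i' hi.1 hi.2 hi'.1 hi'.2) (not_lt.2 h1)
  · have h1 := hbig b h
    rw [← e2] at h1
    exact absurd (hsmall j j' hj.1 hj.2 hj'.1 hj'.2) (not_lt.2 h1)
  · have h1 := hbig c h
    rw [← e3] at h1
    exact absurd (hsmall _ _ g1 g3 g2 g4) (not_lt.2 h1)

/-- **Non-regular solutions of the three-dimensional queens problem.** If `n, m ≥ 2` and `n m` is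
coprime to `210`, then the `(n m, 3)`-queens problem has a solution that is not regular. -/
theorem result (n m : ℕ) (hn : 2 ≤ n) (hm : 2 ≤ m) (hco : Nat.Coprime (n * m) 210) :
    ∃ Q : Finset Cell, IsSolution (n * m) Q ∧ ¬ IsRegular (n * m) Q := by
  classical
  have hn0 : (0 : ℤ) < n := by exact_mod_cast (by omega : 0 < n)
  have hm0 : (0 : ℤ) < m := by exact_mod_cast (by omega : 0 < m)
  have hcn : IsCoprime (n : ℤ) 210 := by
    have := Nat.Coprime.coprime_mul_right hco
    exact_mod_cast (Nat.isCoprime_iff_coprime.2 this)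
  have hcm : IsCoprime (m : ℤ) 210 := by
    have := Nat.Coprime.coprime_mul_left hco
    exact_mod_cast (Nat.isCoprime_iff_coprime.2 this)
  have hn5 : 5 ≤ n := by
    by_contra hcon
    have h1 := Nat.Coprime.coprime_mul_right hco
    interval_cases n
    · norm_num at h1
    · norm_num at h1
    · norm_num at h1
  let g : ℕ × ℕ → Cell := fun p => ((p.1 : ℤ) + 1, (p.2 : ℤ) + 1, F n m p.1 p.2 + 1)
  have hg : Function.Injective g := by
    intro p q h
    have h1 : ((p.1 : ℤ) + 1) = q.1 + 1 := congrArg (fun x : Cell => x.1) h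
    have h2 : ((p.2 : ℤ) + 1) = q.2 + 1 := congrArg (fun x : Cell => x.2.1) h
    ext
    · exact_mod_cast (by linarith : (p.1 : ℤ) = q.1)
    · exact_mod_cast (by linarith : (p.2 : ℤ) = q.2)
  refine ⟨(range (n * m) ×ˢ range (n * m)).image g, ⟨?_, ?_, ?_⟩, ?_⟩
  · intro x hx
    obtain ⟨p, hp, rfl⟩ := mem_image.1 hx
    rw [mem_product, mem_range, mem_range] at hp
    have h1 := F_nonneg hn0 hm0 p.1 p.2
    have h2 := F_lt hn0 hm0 p.1 p.2
    have h3 : ((p.1 : ℕ) : ℤ) < (n * m : ℕ) := by exact_mod_cast hp.1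
    have h4 : ((p.2 : ℕ) : ℤ) < (n * m : ℕ) := by exact_mod_cast hp.2
    have h5 : ((n * m : ℕ) : ℤ) = n * m := by push_cast; rfl
    simp only [g]
    rw [h5] at h3 h4 ⊢
    refine ⟨⟨by omega, by omega⟩, ⟨by omega, by omega⟩, ⟨by omega, by omega⟩⟩
  · rw [card_image_of_injective _ hg, card_product, card_range, sq]
  · intro x hx y hy _ hatt
    obtain ⟨p, hp, rfl⟩ := mem_image.1 hx
    obtain ⟨q, hq, rfl⟩ := mem_image.1 hy
    rw [mem_product, mem_range, mem_range] at hp hq
    obtain ⟨t, a, b, c, ht, hv, ha, hb, hc, e1, e2, e3⟩ := hatt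
    simp only [g] at e1 e2 e3
    have hp1 : ((p.1 : ℕ) : ℤ) < n * m := by exact_mod_cast hp.1
    have hp2 : ((p.2 : ℕ) : ℤ) < n * m := by exact_mod_cast hp.2
    have hq1 : ((q.1 : ℕ) : ℤ) < n * m := by exact_mod_cast hq.1
    have hq2 : ((q.2 : ℕ) : ℤ) < n * m := by exact_mod_cast hq.2
    exact key hn0 hm0 hcn hcm (i := p.1) (j := p.2) (i' := q.1) (j' := q.2) ht hv ha hb hc
      ⟨by positivity, hp1⟩ ⟨by positivity, hq1⟩ ⟨by positivity, hp2⟩ ⟨by positivity, hq2⟩
      (by linarith) (by linarith) (by linarith)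
  · rintro ⟨a, b, c, h⟩
    have hN : 5 * 2 ≤ n * m := Nat.mul_le_mul hn5 hm
    have hmem : ∀ i : ℕ, i < 3 → g (i, 0) ∈ (range (n * m) ×ˢ range (n * m)).image g := by
      intro i hi
      apply mem_image_of_mem
      rw [mem_product, mem_range, mem_range]
      constructor <;> simp only <;> omega
    have h0 := h _ (hmem 0 (by norm_num))
    have h1 := h _ (hmem 1 (by norm_num))
    have h2 := h _ (hmem 2 (by norm_num))
    have hn5' : (5 : ℤ) ≤ n := by exact_mod_cast hn5
    have hm2' : (2 : ℤ) ≤ m := by exact_mod_cast hm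
    have F0 : F n m 0 0 = n := by
      unfold F eps
      simp only [Int.zero_ediv, Int.zero_emod, mul_zero, add_zero, and_self, if_true, zero_add]
      rw [Int.emod_eq_of_lt (by norm_num) (by linarith)]
      ring
    have F1 : F n m 1 0 = 2 := by
      unfold F eps
      have e1 : (1 : ℤ) / n = 0 := Int.ediv_eq_zero_of_lt (by norm_num) (by linarith)
      have e2 : (1 : ℤ) % n = 1 := Int.emod_eq_of_lt (by norm_num) (by linarith)
      rw [e1, e2]
      simp only [Int.zero_ediv, Int.zero_emod, mul_zero, add_zero, one_ne_zero, false_and,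
        if_false, mul_one, zero_add]
      rw [Int.emod_eq_of_lt (by norm_num) (by linarith)]
    have F2 : F n m 2 0 = 4 := by
      unfold F eps
      have e1 : (2 : ℤ) / n = 0 := Int.ediv_eq_zero_of_lt (by norm_num) (by linarith)
      have e2 : (2 : ℤ) % n = 2 := Int.emod_eq_of_lt (by norm_num) (by linarith)
      rw [e1, e2]
      simp only [Int.zero_ediv, Int.zero_emod, mul_zero, add_zero, zero_add]
      norm_num
      exact Int.emod_eq_of_lt (by norm_num) (by linarith)
    simp only [g, Nat.cast_zero, Nat.cast_one, Nat.cast_ofNat, zero_add] at h0 h1 h2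
    rw [F0] at h0
    rw [F1] at h1
    rw [F2] at h2
    -- second difference
    have h3 := (h0.add h2).sub (h1.add h1)
    have e4 : a * 1 + b * 1 + c + (a * (2 + 1) + b * 1 + c) -
        (a * (1 + 1) + b * 1 + c + (a * (1 + 1) + b * 1 + c)) = 0 := by ring
    have e5 : (n : ℤ) + 1 + (4 + 1) - (2 + 1 + (2 + 1)) = n := by ring
    rw [e4, e5] at h3
    have h4 := Int.modEq_zero_iff_dvd.1 h3
    have h5 : n * m ∣ n := by exact_mod_cast h4
    have h6 := Nat.le_of_dvd (by omega) h5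
    nlinarith

end Pool.Agent.Results.MP_70387e_co.NonRegular
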